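import Pool.Agent.Lib.H94Q.T
import Pool.Agent.Lib.H98M.M0

/-!
# H94Q, file A: the part of the functor for a connected non-coverable graph, in terms of `Disc`

`Cov` is any family of vertex sets closed under subsets with the exchange property (P1).
-/

set_option autoImplicit false

namespace H94Q

open Finset H98P H98Z H98M H63F H30F

variable {V : Type*} [Fintype V] [DecidableEq V]

/-- The graph of an edge set. -/
abbrev gr (F : Finset (Sym2 V)) : SimpleGraph V := SimpleGraph.fromEdgeSet (F : Set (Sym2 V))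

theorem con_of_not_disc {F : Finset (Sym2 V)} {W : Finset V} (h : ¬ Disc W F) : Con (gr F) W := by
  intro A hA hn hne
  by_contra hcon
  push Not at hcon
  refine h ⟨A, W \ A, hn, ?_, disjoint_sdiff, union_sdiff_of_subset hA, fun x hx y hy hxy => ?_⟩
  · rw [nonempty_iff_ne_empty]
    intro e
    exact hne (Subset.antisymm hA (sdiff_eq_empty_iff_subset.1 e))
  · have h1 := mem_sdiff.1 hy
    refine hcon x hx y h1.1 h1.2 ?_
    rw [SimpleGraph.fromEdgeSet_adj]
    exact ⟨hxy, fun e => h1.2 (e ▸ hx)⟩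

/-- `{W : G[W] disconnected, W not covered}` is acyclic if `V` is not covered. -/
theorem ac_disc_not {F : Finset (Sym2 V)} {Cov : Finset V → Prop}
    (hdn : ∀ A B : Finset V, A ⊆ B → Cov B → Cov A) (hE : ∀ M, Exch (gr F) Cov M)
    (h1 : ∀ x : V, Cov {x}) (hne : Nonempty V) (hV : ¬ Cov univ) :
    AC (Ch fun W : Finset V => Disc W F ∧ ¬ Cov W) := by
  have h0 : Cov ∅ := by
    obtain ⟨x⟩ := hne
    exact hdn _ _ (empty_subset _) (h1 x)
  have h2 := ac_fill (N := fun W : Finset V => ¬ Cov W) (D := fun W : Finset V => Disc W F) ?_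
    univ hV
  · refine ac_congr (fun c => ?_) h2
    constructor
    · exact fun h => ⟨fun W hW => ⟨(h.1 W hW).1.2, (h.1 W hW).1.1⟩, h.2⟩
    · exact fun h => ⟨fun W hW => ⟨⟨(h.1 W hW).2, (h.1 W hW).1⟩, subset_univ W⟩, h.2⟩
  · intro M hM hD
    have hMn : M.Nonempty := by
      rw [nonempty_iff_ne_empty]
      intro e
      exact hM (e ▸ h0)
    obtain ⟨x, hx⟩ := hMn
    exact dual_tree (gr F) M.card M Cov rfl (con_of_not_disc hD) hdn (hE M) ⟨x, hx, h1 x⟩ hM

end H94Q
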