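import Pool.Agent.Lib.H30F.SD

/-!
# H94Q, file Q: Quillen's fibre lemma for a subfamily of a finite partial order (lower fibres)
-/

set_option autoImplicit false

namespace H94Q

open Finset H98P H63F H30F

/-- QUILLEN, lower fibres: `X` a subfamily of `P`, all the parts of `X` below an element of `P` are
acyclic; then `X` is acyclic if `P` is. -/
theorem ac_fibre {α : Type*} [PartialOrder α] [Fintype α] [DecidableEq α] {X P : α → Prop}
    (hXP : ∀ x, X x → P x) (hfib : ∀ p, P p → AC (Ch fun x => X x ∧ x ≤ p))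
    (hP : AC (Ch P)) : AC (Ch X) := by
  refine ac_transfer (Ch X) (Ch P) ch_dn ch_dn (ch_empty X) (ch_empty P)
    (fun s T => T ⊆ s) (fun t U => Ch X U ∧ ∃ m ∈ t, ∀ u ∈ U, u ≤ m)
    (fun s U => Ch X U ∧ ∃ m ∈ s, ∀ u ∈ U, u ≤ m)
    ?_ ?_ ?_ ?_ ?_ ?_ ?_ ?_ ?_ ?_ ?_ ?_ ?_ hP
  · exact fun s t hst _ _ r hr => hr.trans hst
  · exact fun s _ _ => empty_subset _
  · exact fun s _ hn => ac_simplex hn
  · exact fun s hs _ r hr => ch_dn _ _ hr (ch_mono hXP hs)
  · rintro s t hst _ _ r ⟨h1, m, hm, h2⟩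
    exact ⟨h1, m, hst hm, h2⟩
  · intro s _ hn
    obtain ⟨m, hm⟩ := hn
    exact ⟨ch_empty X, m, hm, fun u hu => absurd hu (notMem_empty u)⟩
  · intro s hs hn
    obtain ⟨m, hm, h⟩ := ch_max hs hn
    have e : (fun U => Ch X U ∧ ∃ m ∈ s, ∀ u ∈ U, u ≤ m) = Ch fun x => X x ∧ x ≤ m := by
      funext U
      refine propext ⟨?_, ?_⟩
      · rintro ⟨h1, m', hm', h2⟩
        exact ⟨fun x hx => ⟨h1.1 x hx, (h2 x hx).trans (h m' hm')⟩, h1.2⟩
      · rintro ⟨h1, h2⟩
        exact ⟨⟨fun x hx => (h1 x hx).1, h2⟩, m, hm, fun u hu => (h1 u hu).2⟩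
    rw [e]
    exact hfib m (hs.1 m hm)
  · exact fun s _ _ r hr => hr.1
  · rintro s t hst _ _ r ⟨h1, m, hm, h2⟩
    exact ⟨h1, m, hst hm, h2⟩
  · intro s hs hn
    obtain ⟨m, hm, h⟩ := ch_max hs hn
    exact ⟨hs, m, hm, h⟩
  · intro s hs hn
    obtain ⟨m, hm, h⟩ := ch_max hs hn
    refine H96H.ac_cone ?_ m ?_
    · rintro U U' hU ⟨h1, m', hm', h2⟩
      exact ⟨ch_dn _ _ hU h1, m', hm', fun u hu => h2 u (hU hu)⟩
    · rintro U ⟨h1, m', hm', h2⟩
      refine ⟨ch_insert h1 (hs.1 m hm) fun x hx => Or.inr ((h2 x hx).trans (h m' hm')), m, hm, ?_⟩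
      intro u hu
      rcases mem_insert.1 hu with h3 | h3
      · rw [h3]
      · exact (h2 u h3).trans (h m' hm')
  · exact fun s _ _ r hr => hr.1
  · rintro s t r hs hn h1 _ ⟨h3, m, hm, h4⟩
    exact ⟨h3, m, h1 hm, h4⟩

/-- FILLING (helper20's reduction): `N` any family of vertex sets, `D` the disconnected ones. If for
every connected `M` in `N` the members of `N` strictly inside `M` are acyclic, then for every `M`
in `N` the disconnected members of `N` inside `M` are acyclic. -/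
theorem ac_fill {V : Type*} [Fintype V] [DecidableEq V] {N D : Finset V → Prop}
    (hY : ∀ M, N M → ¬ D M → AC (Ch fun W : Finset V => W ⊂ M ∧ N W)) :
    ∀ M, N M → AC (Ch fun W : Finset V => (N W ∧ D W) ∧ W ≤ M) := by
  intro M
  induction M using Finset.strongInduction with
  | H M ih =>
    intro hM
    by_cases hD : D M
    · exact ac_ch_cone (a := M) ⟨⟨hM, hD⟩, le_refl M⟩ fun x hx => Or.inr hx.2
    · refine ac_fibre (P := fun W : Finset V => W ⊂ M ∧ N W) ?_ ?_ (hY M hM hD)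
      · rintro W ⟨⟨h1, h2⟩, h3⟩
        refine ⟨lt_of_le_of_ne h3 fun e => hD (e ▸ h2), h1⟩
      · rintro W ⟨h1, h2⟩
        have h3 := ih W h1 h2
        have e : (fun x : Finset V => ((N x ∧ D x) ∧ x ≤ M) ∧ x ≤ W) =
            fun x : Finset V => (N x ∧ D x) ∧ x ≤ W := by
          funext x
          exact propext ⟨fun h => ⟨h.1.1, h.2⟩, fun h => ⟨⟨h.1, h.2.trans h1.1⟩, h.2⟩⟩
        rw [e]
        exact h3

end H94Q
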