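import Pool.Agent.Lib.H94Q.Q

/-!
# H94Q, file T: the dual tree lemma

`K` a complex on the connected vertex set `M` with the exchange property (P1), some vertex in `K`,
`M` not in `K`: then the proper subsets of `M` which are not in `K` form an acyclic poset.
-/

set_option autoImplicit false

namespace H94Q

open Finset H98P H63F H30F

/-- One element `a` with nothing above is added along an acyclic lower part. -/
theorem ac_add_top {α : Type*} [PartialOrder α] [Fintype α] [DecidableEq α] {P : α → Prop} {a : α}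
    (ha : P a) (hmax : ∀ x, P x → a ≤ x → x = a) (h1 : AC (Ch fun x => P x ∧ x ≠ a))
    (h2 : AC (Ch fun x => P x ∧ x < a)) : AC (Ch P) := by
  have h3 : AC (Ch fun x => P x ∧ x ≤ a) := ac_ch_cone (a := a) ⟨ha, le_refl a⟩ fun x hx => Or.inr hx.2
  have h4 : AC fun c : Finset α => Ch (fun x => P x ∧ x ≠ a) c ∧ Ch (fun x => P x ∧ x ≤ a) c := by
    refine ac_congr (fun c => ?_) h2
    constructor
    · intro h
      exact ⟨⟨fun x hx => ⟨(h.1 x hx).1, (h.1 x hx).2.ne⟩, h.2⟩,
        ⟨fun x hx => ⟨(h.1 x hx).1, (h.1 x hx).2.le⟩, h.2⟩⟩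
    · rintro ⟨h5, h6⟩
      exact ⟨fun x hx => ⟨(h5.1 x hx).1, lt_of_le_of_ne (h6.1 x hx).2 (h5.1 x hx).2⟩, h5.2⟩
  refine ac_congr (fun c => ?_) (ac_union ch_dn ch_dn h1 h3 h4)
  constructor
  · rintro (h | h)
    · exact ch_mono (fun x hx => hx.1) h
    · exact ch_mono (fun x hx => hx.1) h
  · intro h
    by_cases hac : a ∈ c
    · right
      refine ⟨fun x hx => ⟨h.1 x hx, ?_⟩, h.2⟩
      rcases h.2 x hx a hac with h5 | h5
      · exact h5
      · exact (hmax x (h.1 x hx) h5).le
    · left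
      exact ⟨fun x hx => ⟨h.1 x hx, fun e => hac (e ▸ hx)⟩, h.2⟩

variable {V : Type*} [Fintype V] [DecidableEq V]

/-- `M` is connected in `G` (every partition is crossed by an edge). -/
def Con (G : SimpleGraph V) (M : Finset V) : Prop :=
  ∀ A ⊆ M, A.Nonempty → A ≠ M → ∃ a ∈ A, ∃ b ∈ M, b ∉ A ∧ G.Adj a b

theorem con_insert {G : SimpleGraph V} {C : Finset V} (hC : Con G C) {a b : V} (ha : a ∈ C)
    (hb : b ∉ C) (hab : G.Adj a b) : Con G (insert b C) := by
  intro A hA hn hne
  by_cases h1 : A ∩ C = ∅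
  · have h2 : b ∈ A := by
      obtain ⟨x, hx⟩ := hn
      rcases mem_insert.1 (hA hx) with h3 | h3
      · exact h3 ▸ hx
      · exact absurd (mem_inter.2 ⟨hx, h3⟩) (h1 ▸ notMem_empty x)
    exact ⟨b, h2, a, mem_insert_of_mem ha, fun h3 => absurd (mem_inter.2 ⟨h3, ha⟩)
      (h1 ▸ notMem_empty a), hab.symm⟩
  by_cases h2 : A ∩ C = C
  · have h3 : C ⊆ A := fun x hx => (mem_inter.1 (h2 ▸ hx)).1
    refine ⟨a, h3 ha, b, mem_insert_self _ _, fun h4 => hne ?_, hab⟩
    exact Subset.antisymm hA (insert_subset h4 h3)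
  · obtain ⟨x, hx, y, hy, hxy, h⟩ := hC (A ∩ C) inter_subset_right
      (nonempty_iff_ne_empty.2 h1) h2
    exact ⟨x, (mem_inter.1 hx).1, y, mem_insert_of_mem hy, fun h3 => hxy (mem_inter.2 ⟨h3, hy⟩), h⟩

theorem con_singleton (G : SimpleGraph V) (x : V) : Con G {x} := by
  intro A hA hn hne
  rcases subset_singleton_iff.1 hA with h | h
  · exact absurd h hn.ne_empty
  · exact absurd h hne

/-- A connected set with at least two elements keeps connected when a suitable element other than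
`x` is deleted. -/
theorem exists_leaf {G : SimpleGraph V} {M : Finset V} (hM : Con G M) {x : V} (hx : x ∈ M)
    (hne : M ≠ {x}) : ∃ b ∈ M, b ≠ x ∧ Con G (M.erase b) := by
  classical
  obtain ⟨C, hC, hmax⟩ := (M.powerset.filter fun C => x ∈ C ∧ C ≠ M ∧ Con G C).exists_max_image card
    ⟨{x}, mem_filter.2 ⟨mem_powerset.2 (singleton_subset_iff.2 hx), mem_singleton_self x,
      fun e => hne e.symm, con_singleton G x⟩⟩
  rw [mem_filter, mem_powerset] at hC
  obtain ⟨hCM, hxC, hCne, hcon⟩ := hC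
  obtain ⟨a, ha, b, hb, hbC, hab⟩ := hM C hCM ⟨x, hxC⟩ hCne
  have h1 : insert b C = M := by
    by_contra h2
    have h3 := hmax (insert b C) (mem_filter.2 ⟨mem_powerset.2 (insert_subset hb hCM),
      mem_insert_of_mem hxC, h2, con_insert hcon ha hbC hab⟩)
    rw [card_insert_of_notMem hbC] at h3
    omega
  refine ⟨b, hb, fun e => hbC (e ▸ hxC), ?_⟩
  rw [← h1, erase_insert hbC]
  exact hcon

/-- The exchange property (P1) of a complex `K` on the vertex set `M` of `G`. -/
def Exch (G : SimpleGraph V) (K : Finset V → Prop) (M : Finset V) : Prop :=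
  ∀ A ⊆ M, K A → ∀ b ∈ M, ∀ d ∈ M, b ∉ A → d ∉ A → b ≠ d → K (insert b A) → K (insert d A) →
    (∃ p : G.Walk b d, p.IsPath ∧ (∀ x ∈ p.support, x ∈ M) ∧
      ∀ x ∈ p.support, x ≠ b → x ≠ d → x ∉ A ∧ ¬ K (insert x A)) →
    K (insert b (insert d A))

/-- NEAREST VERTEX. -/
theorem exists_near {G : SimpleGraph V} {K : Finset V → Prop} {M : Finset V} (hM : Con G M)
    (hE : Exch G K M) (h0 : K ∅) {b c : V} (hb : b ∈ M) (hc : c ∈ M) (hbc : b ≠ c) (hKb : K {b})
    (hKc : K {c}) : ∃ d ∈ M, d ≠ b ∧ K {b, d} := by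
  classical
  obtain ⟨Z, hZ⟩ : ∃ Z : Finset V, ∀ z, z ∈ Z ↔ z ∈ M ∧ ∃ p : G.Walk b z,
      (∀ x ∈ p.support, x ∈ M) ∧ ∀ x ∈ p.support, x ≠ b → ¬ K {x} := by
    refine ⟨univ.filter fun z => z ∈ M ∧ ∃ p : G.Walk b z, (∀ x ∈ p.support, x ∈ M) ∧
      ∀ x ∈ p.support, x ≠ b → ¬ K {x}, fun z => by simp⟩
  have hbZ : b ∈ Z := by
    rw [hZ]
    refine ⟨hb, SimpleGraph.Walk.nil, fun x hx => ?_, fun x hx hne => ?_⟩
    · rw [SimpleGraph.Walk.support_nil, List.mem_singleton] at hx
      exact hx ▸ hb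
    · rw [SimpleGraph.Walk.support_nil, List.mem_singleton] at hx
      exact absurd hx hne
  have hcZ : c ∉ Z := by
    intro h
    obtain ⟨-, p, -, h2⟩ := (hZ c).1 h
    exact h2 c p.end_mem_support (Ne.symm hbc) hKc
  obtain ⟨a, ha, d, hd, hdZ, had⟩ := hM Z (fun z hz => ((hZ z).1 hz).1) ⟨b, hbZ⟩
    (fun e => hcZ (e ▸ hc))
  obtain ⟨haM, p, hp1, hp2⟩ := (hZ a).1 ha
  have hsup : ∀ x ∈ (p.concat had).support, x ∈ p.support ∨ x = d := by
    intro x hx
    rw [SimpleGraph.Walk.support_concat] at hx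
    simpa using hx
  have hdb : d ≠ b := fun e => hdZ (e ▸ hbZ)
  have hKd : K {d} := by
    by_contra hn
    refine hdZ ((hZ d).2 ⟨hd, p.concat had, fun x hx => ?_, fun x hx hne => ?_⟩)
    · rcases hsup x hx with h | h
      · exact hp1 x h
      · exact h ▸ hd
    · rcases hsup x hx with h | h
      · exact hp2 x h hne
      · exact h ▸ hn
  refine ⟨d, hd, hdb, ?_⟩
  have h1 := hE ∅ (empty_subset _) h0 b hb d hd (notMem_empty b) (notMem_empty d) hdb.symm
    (by simpa using hKb) (by simpa using hKd)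
    ⟨(p.concat had).bypass, SimpleGraph.Walk.bypass_isPath _, fun x hx => ?_, fun x hx h2 h3 => ?_⟩
  · simpa using h1
  · rcases hsup x (SimpleGraph.Walk.support_bypass_subset _ hx) with h | h
    · exact hp1 x h
    · exact h ▸ hd
  · rcases hsup x (SimpleGraph.Walk.support_bypass_subset _ hx) with h | h
    · exact ⟨notMem_empty x, by simpa using hp2 x h h2⟩
    · exact absurd h h3

theorem exch_del {G : SimpleGraph V} {K : Finset V → Prop} {M : Finset V} (hE : Exch G K M)
    (b : V) : Exch G K (M.erase b) := by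
  rintro A hA hKA c hc d hd h1 h2 h3 h4 h5 ⟨p, hp, h6, h7⟩
  exact hE A (hA.trans (erase_subset b M)) hKA c (mem_of_mem_erase hc) d (mem_of_mem_erase hd)
    h1 h2 h3 h4 h5 ⟨p, hp, fun x hx => mem_of_mem_erase (h6 x hx), h7⟩

theorem exch_link {G : SimpleGraph V} {K : Finset V → Prop} {M : Finset V} (hE : Exch G K M)
    {b : V} (hb : b ∈ M) : Exch G (fun A => K (insert b A)) (M.erase b) := by
  rintro A hA hKA c hc d hd h1 h2 h3 h4 h5 ⟨p, hp, h6, h7⟩
  have e : ∀ x : V, insert b (insert x A) = insert x (insert b A) := fun x => insert_comm b x A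
  have hcb : c ≠ b := (mem_erase.1 hc).1
  have hdb : d ≠ b := (mem_erase.1 hd).1
  have h8 := hE (insert b A) (insert_subset hb (hA.trans (erase_subset b M))) hKA c
    (mem_of_mem_erase hc) d (mem_of_mem_erase hd)
    (fun h => by rcases mem_insert.1 h with h | h; exact hcb h; exact h1 h)
    (fun h => by rcases mem_insert.1 h with h | h; exact hdb h; exact h2 h) h3
    (by rw [← e]; exact h4) (by rw [← e]; exact h5)
    ⟨p, hp, fun x hx => mem_of_mem_erase (h6 x hx), fun x hx h9 h10 => ?_⟩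
  · show K (insert b (insert c (insert d A)))
    rw [insert_comm b c, insert_comm b d]
    exact h8
  · obtain ⟨h11, h12⟩ := h7 x hx h9 h10
    refine ⟨fun h => ?_, ?_⟩
    · rcases mem_insert.1 h with h | h
      · exact (mem_erase.1 (h6 x hx)).1 h
      · exact h11 h
    · rw [← e]
      exact h12

/-- DUAL TREE LEMMA. -/
theorem dual_tree (G : SimpleGraph V) : ∀ (n : ℕ) (M : Finset V) (K : Finset V → Prop),
    M.card = n → Con G M → (∀ A B : Finset V, A ⊆ B → K B → K A) → Exch G K M →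
    (∃ x ∈ M, K {x}) → ¬ K M → AC (Ch fun W : Finset V => W < M ∧ ¬ K W) := by
  intro n
  induction n with
  | zero =>
    rintro M K hn _ _ _ ⟨x, hx, _⟩
    rw [card_eq_zero.1 hn] at hx
    exact absurd hx (notMem_empty x)
  | succ n ih =>
    rintro M K hn hM hdn hE ⟨x, hx, hKx⟩ hKM
    have hne : M ≠ {x} := fun e => hKM (e ▸ hKx)
    obtain ⟨b, hb, hbx, hM'⟩ := exists_leaf hM hx hne
    have hK0 : K ∅ := hdn _ _ (empty_subset _) hKx
    have hxM' : x ∈ M.erase b := mem_erase.2 ⟨hbx.symm, hx⟩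
    have hcard : (M.erase b).card = n := by rw [card_erase_of_mem hb, hn]; rfl
    have hins : insert b (M.erase b) = M := insert_erase hb
    have hM'lt : M.erase b < M := erase_ssubset hb
    -- the part which contains `b`
    have hZ2 : AC (Ch fun W : Finset V => (W < M ∧ ¬ K W) ∧ b ∈ W) := by
      by_cases hKb : K {b}
      · obtain ⟨d, hd, hdb, hbd⟩ := exists_near hM hE hK0 hb hx hbx hKb hKx
        have h1 := ih (M.erase b) (fun A => K (insert b A)) hcard hM'
          (fun A B hAB hB => hdn _ _ (insert_subset_insert b hAB) hB) (exch_link hE hb)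
          ⟨d, mem_erase.2 ⟨hdb, hd⟩, hbd⟩ (by show ¬ K (insert b (M.erase b)); rw [hins]; exact hKM)
        refine ac_closure (fun W => W.erase b) (fun W => insert b W) ?_ ?_ ?_ ?_ ?_ h1
        · rintro W ⟨⟨h2, h3⟩, h4⟩
          refine ⟨?_, ?_⟩
          · refine lt_of_le_of_ne (erase_subset_erase b h2.le) fun e => h2.ne ?_
            rw [← insert_erase h4, ← hins]
            exact congrArg (insert b) e
          · show ¬ K (insert b (W.erase b))
            rw [insert_erase h4]
            exact h3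
        · rintro W ⟨h2, h3⟩
          refine ⟨⟨?_, h3⟩, mem_insert_self b W⟩
          have hbW : b ∉ W := fun h => (mem_erase.1 (h2.le h)).1 rfl
          refine lt_of_le_of_ne ?_ fun e => h2.ne ?_
          · exact insert_subset hb (h2.le.trans (erase_subset b M))
          · rw [← erase_insert hbW, e]
        · exact fun W W' _ _ h => erase_subset_erase b h
        · exact fun W W' _ _ h => insert_subset_insert b h
        · rintro W ⟨⟨_, _⟩, h4⟩
          exact (insert_erase h4).ge
      · refine ac_ch_cone (a := {b}) ⟨⟨?_, hKb⟩, mem_singleton_self b⟩ fun W hW => Or.inl ?_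
        · refine lt_of_le_of_ne (singleton_subset_iff.2 hb) fun e => hbx ?_
          have := e ▸ hx
          exact (mem_singleton.1 this).symm
        · exact singleton_subset_iff.2 hW.2
    by_cases hKM' : K (M.erase b)
    · refine ac_congr (fun c => ⟨fun h => ch_mono (fun W hW => hW.1) h, fun h => ⟨fun W hW => ?_, h.2⟩⟩)
        hZ2
      refine ⟨h.1 W hW, ?_⟩
      by_contra hbW
      refine (h.1 W hW).2 (hdn _ _ (fun y hy => ?_) hKM')
      exact mem_erase.2 ⟨fun e => hbW (e ▸ hy), (h.1 W hW).1.le hy⟩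
    · refine ac_add_top (a := M.erase b) ⟨hM'lt, hKM'⟩ ?_ ?_ ?_
      · rintro W ⟨h1, _⟩ h2
        refine (eq_of_subset_of_card_le h2 ?_).symm
        have := card_lt_card h1
        omega
      · refine ac_closure (Q := fun W : Finset V => (W < M ∧ ¬ K W) ∧ b ∈ W)
          (fun W => insert b W) (fun W => W) ?_ ?_ ?_ ?_ ?_ hZ2
        · rintro W ⟨⟨h1, h2⟩, h3⟩
          refine ⟨⟨lt_of_le_of_ne (insert_subset hb h1.le) fun e => ?_,
            fun h => h2 (hdn _ _ (subset_insert b W) h)⟩, mem_insert_self b W⟩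
          by_cases hbW : b ∈ W
          · rw [insert_eq_of_mem hbW] at e
            exact h1.ne e
          · exact h3 (by rw [← e, erase_insert hbW])
        · rintro W ⟨h1, h2⟩
          exact ⟨h1, fun e => (mem_erase.1 (e ▸ h2)).1 rfl⟩
        · exact fun W W' _ _ h => insert_subset_insert b h
        · exact fun W W' _ _ h => h
        · exact fun W _ => subset_insert b W
      · refine ac_congr (fun c => ?_) (ih (M.erase b) K hcard hM' hdn (exch_del hE b) ⟨x, hxM', hKx⟩ hKM')
        constructor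
        · exact fun h => ⟨fun W hW => ⟨⟨(h.1 W hW).1.trans hM'lt, (h.1 W hW).2⟩, (h.1 W hW).1⟩, h.2⟩
        · exact fun h => ⟨fun W hW => ⟨(h.1 W hW).2, (h.1 W hW).1.2⟩, h.2⟩

end H94Q
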